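import Mathlib

/-!
# Two inequivalent extreme subsets of `ℤ/127ℤ` of the same cardinality

For `p = 127` and `n = 64` there are two extreme `64`-element subsets of `ℤ/pℤ` that are not
carried onto each other by any affine map `x ↦ a x + b`, `a ≠ 0`.  The two measures are
`(1 + θ_d) / 16`, where `θ_d` is the cross-correlation function of a binary `m`-sequence of
period `127` with its `d`-decimation, for the almost bent exponents `d = 3` and `d = 23`.
-/

namespace Pool.Agent.Results.MP_6d480e_an.Inequivalent127

open scoped ComplexConjugate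

/-- A subset `E` of a finite abelian group is extreme when there is a measure
`μ = ∑_{x ∈ E} c_x δ_x`, all of whose coefficients have modulus one, such that
`μ * μ̃ = |E| δ_0`; the coefficient of `μ * μ̃` at `s` is `∑_x c_{x+s} conj (c_x)`. -/
def IsExtreme {G : Type} [AddCommGroup G] [Fintype G] [DecidableEq G] (E : Finset G) : Prop :=
  ∃ c : G → ℂ, (∀ x ∈ E, ‖c x‖ = 1) ∧ (∀ x, x ∉ E → c x = 0) ∧
    ∀ s : G, ∑ x : G, c (x + s) * conj (c x) = if s = 0 then (E.card : ℂ) else 0

/-- Two subsets of `ℤ/pℤ` are equivalent when `F = a E + b` for some `a ≠ 0` and some `b`. -/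
def AreEquivalent {p : ℕ} (E F : Finset (ZMod p)) : Prop :=
  ∃ a : ZMod p, a ≠ 0 ∧ ∃ b : ZMod p, F = E.image (fun x => a * x + b)

/-- The ternary sequence with `+1` at the bits of `P` and `-1` at the bits of `M`. -/
def cz (P M i : ℕ) : ℤ := if P.testBit i then 1 else if M.testBit i then -1 else 0

/-- First sequence, positive positions. -/
def P₁ : ℕ := 24323007880336266132789942060257902593
/-- First sequence, negative positions. -/
def M₁ : ℕ := 1344807263514968896417253278079305856
/-- Second sequence, positive positions. -/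
def P₂ : ℕ := 5214322599708593225687228249696897
/-- Second sequence, negative positions. -/
def M₂ : ℕ := 25307346794523079155530931782772884512

/-- The support of the ternary sequence given by `P` and `M`. -/
def supp (P M : ℕ) : Finset (ZMod 127) :=
  Finset.univ.filter fun x => (P ||| M).testBit x.val = true

theorem auto₁ : ∀ s < 127, ∑ i ∈ Finset.range 127, cz P₁ M₁ ((i + s) % 127) * cz P₁ M₁ i =
    if s = 0 then 64 else 0 := by
  decide +kernel

theorem auto₂ : ∀ s < 127, ∑ i ∈ Finset.range 127, cz P₂ M₂ ((i + s) % 127) * cz P₂ M₂ i =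
    if s = 0 then 64 else 0 := by
  decide +kernel

theorem card₁ : (supp P₁ M₁).card = 64 := by decide +kernel

theorem card₂ : (supp P₂ M₂).card = 64 := by decide +kernel

instance : Fact (Nat.Prime 127) := ⟨by norm_num⟩

theorem extreme_of (P M : ℕ)
    (hauto : ∀ s < 127, ∑ i ∈ Finset.range 127, cz P M ((i + s) % 127) * cz P M i =
      if s = 0 then 64 else 0)
    (hcard : (supp P M).card = 64) : IsExtreme (supp P M) := by
  refine ⟨fun x => ((cz P M x.val : ℤ) : ℂ), ?_, ?_, ?_⟩
  · intro x hx
    have hx' : (P ||| M).testBit x.val = true := by simpa [supp] using hx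
    rw [Nat.testBit_or] at hx'
    by_cases h1 : P.testBit x.val = true
    · simp [cz, h1]
    · have h2 : M.testBit x.val = true := by
        simpa [h1] using hx'
      simp [cz, h1, h2]
  · intro x hx
    have hx' : ¬ (P ||| M).testBit x.val = true := by simpa [supp] using hx
    rw [Nat.testBit_or, Bool.or_eq_true, not_or] at hx'
    simp [cz, hx'.1, hx'.2]
  · intro s
    have hs : s.val < 127 := ZMod.val_lt s
    have h := hauto s.val hs
    have h1 : ∑ x : ZMod 127, cz P M (x + s).val * cz P M x.val =
        ∑ i ∈ Finset.range 127, cz P M ((i + s.val) % 127) * cz P M i := by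
      rw [← Fin.sum_univ_eq_sum_range (fun i => cz P M ((i + s.val) % 127) * cz P M i) 127]
      refine Finset.sum_congr rfl fun x _ => ?_
      rw [ZMod.val_add]
      rfl
    have h2 : ∑ x : ZMod 127, cz P M (x + s).val * cz P M x.val =
        if s = 0 then 64 else 0 := by
      rw [h1, h]
      by_cases h0 : s = 0
      · simp [h0]
      · have : s.val ≠ 0 := by
          intro hh
          exact h0 ((ZMod.val_eq_zero s).1 hh)
        simp [h0, this]
    have h3 := congrArg (fun z : ℤ => (z : ℂ)) h2
    rw [hcard]
    simp only [Int.cast_sum, Int.cast_mul] at h3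
    simp only [map_intCast]
    rw [h3]
    by_cases h0 : s = 0 <;> simp [h0]

theorem ineq_check : (List.range 127).all (fun a => a == 0 ||
    (List.range 127).all fun b => (List.range 127).any fun x =>
      (P₁ ||| M₁).testBit x && !(P₂ ||| M₂).testBit ((a * x + b) % 127)) = true := by
  decide +kernel

theorem not_equiv : ¬ AreEquivalent (supp P₁ M₁) (supp P₂ M₂) := by
  rintro ⟨a, ha, b, hF⟩
  have h := ineq_check
  rw [List.all_eq_true] at h
  have h1 := h a.val (List.mem_range.2 (ZMod.val_lt a))
  have ha' : (a.val == 0) = false := by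
    rw [beq_eq_false_iff_ne]
    intro hh
    exact ha ((ZMod.val_eq_zero a).1 hh)
  rw [ha', Bool.false_or, List.all_eq_true] at h1
  have h2 := h1 b.val (List.mem_range.2 (ZMod.val_lt b))
  rw [List.any_eq_true] at h2
  obtain ⟨x, hx, hx2⟩ := h2
  rw [List.mem_range] at hx
  rw [Bool.and_eq_true, Bool.not_eq_true'] at hx2
  obtain ⟨hx3, hx4⟩ := hx2
  have hval : ((x : ℕ) : ZMod 127).val = x := ZMod.val_cast_of_lt hx
  have hxE : ((x : ℕ) : ZMod 127) ∈ supp P₁ M₁ := by
    simp only [supp, Finset.mem_filter, Finset.mem_univ, true_and]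
    rw [hval]
    exact hx3
  have hy : a * ((x : ℕ) : ZMod 127) + b ∈ supp P₂ M₂ := by
    rw [hF]
    exact Finset.mem_image_of_mem _ hxE
  simp only [supp, Finset.mem_filter, Finset.mem_univ, true_and] at hy
  have hv : (a * ((x : ℕ) : ZMod 127) + b).val = (a.val * x + b.val) % 127 := by
    rw [ZMod.val_add, ZMod.val_mul, hval]
    simp [Nat.add_mod]
  rw [hv, hx4] at hy
  exact Bool.false_ne_true hy

/-- **Disproof of Q1**: it is not true that for every prime `p` and every `1 < n < p` any two
extreme `n`-element subsets of `ℤ/pℤ` are equivalent. -/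
theorem result :
    ¬ ∀ (p : ℕ) [Fact p.Prime] (n : ℕ), 1 < n → n < p →
      ∀ E F : Finset (ZMod p), E.card = n → F.card = n →
        IsExtreme E → IsExtreme F → AreEquivalent E F := by
  intro h
  exact not_equiv (h 127 64 (by norm_num) (by norm_num) (supp P₁ M₁) (supp P₂ M₂) card₁ card₂
    (extreme_of P₁ M₁ auto₁ card₁) (extreme_of P₂ M₂ auto₂ card₂))

end Pool.Agent.Results.MP_6d480e_an.Inequivalent127
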